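import Pool.Agent.Lib_MP_f6e057_co.GL.MaderAll

/-!
# MP_f6e057_co: Mader's conjecture on connectivity keeping trees

For all `k ≥ 2`, all trees `T` of any order `m` and all `k`-connected graphs `G` with
`δ(G) ≥ ⌊3k/2⌋ + m - 1` there is a copy `T'` of `T` in `G` such that `G - V(T')` is `k`-connected.
-/

namespace Pool.Agent.Results.MP_f6e057_co.MaderConjecture

open Pool.Agent.Lib_MP_f6e057_co

theorem result {V W : Type} [Fintype V] [Fintype W] (G : SimpleGraph V) [DecidableRel G.Adj]
    (T : SimpleGraph W) (hT : T.IsTree) (k : ℕ) (hk : 2 ≤ k) (hG : KConnected k G)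
    (hd : 3 * k / 2 + Fintype.card W - 1 ≤ G.minDegree) :
    ∃ φ : W ↪ V, (∀ u v, T.Adj u v → G.Adj (φ u) (φ v)) ∧
      KConnected k (G.induce (Set.range φ)ᶜ) :=
  GL.mader_all G T hT k hk hG hd

end Pool.Agent.Results.MP_f6e057_co.MaderConjecture
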